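import Mathlib

/-!
# The operator: the backward shift on an inverse limit of copies of `ℂ^ℕ`
-/

set_option autoImplicit false

open Filter Topology

namespace Pool.Agent.H795R2.Fhc

/-- The space: families `(y_k)` of complex sequences with `y_k = (B - λ_k) y_{k+1}`, `B` the
backward shift. -/
def X (lam : ℕ → ℂ) : Submodule ℂ (ℕ → ℕ → ℂ) where
  carrier := {y | ∀ k n, y k n = y (k + 1) (n + 1) - lam k * y (k + 1) n}
  add_mem' := by
    intro a b ha hb k n
    simp only [Pi.add_apply, ha k n, hb k n]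
    ring
  zero_mem' := by
    intro k n
    simp
  smul_mem' := by
    intro c a ha k n
    simp only [Pi.smul_apply, smul_eq_mul, ha k n]
    ring

variable {lam : ℕ → ℂ}

lemma rel (y : X lam) (k n : ℕ) :
    (y : ℕ → ℕ → ℂ) k n = (y : ℕ → ℕ → ℂ) (k + 1) (n + 1) - lam k * (y : ℕ → ℕ → ℂ) (k + 1) n :=
  y.2 k n

lemma isClosed_X : IsClosed (X lam : Set (ℕ → ℕ → ℂ)) := by
  have : (X lam : Set (ℕ → ℕ → ℂ)) =
      ⋂ k : ℕ, ⋂ n : ℕ, {y | y k n = y (k + 1) (n + 1) - lam k * y (k + 1) n} := by
    ext y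
    simp only [Set.mem_iInter]
    rfl
  rw [this]
  refine isClosed_iInter fun k => isClosed_iInter fun n => isClosed_eq ?_ ?_
  · fun_prop
  · fun_prop

instance : CompleteSpace (X lam) := isClosed_X.completeSpace_coe

instance : IsUniformAddGroup (X lam) :=
  inferInstanceAs (IsUniformAddGroup (X lam).toAddSubgroup)

instance : ContinuousSMul ℂ (X lam) := inferInstance

instance : TopologicalSpace.MetrizableSpace (X lam) :=
  Topology.IsEmbedding.subtypeVal.metrizableSpace

instance : SecondCountableTopology (X lam) := by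
  change SecondCountableTopology ((X lam : Set (ℕ → ℕ → ℂ)))
  infer_instance

instance : TopologicalSpace.SeparableSpace (X lam) := inferInstance

/-- The operator. -/
def T (lam : ℕ → ℂ) : X lam →L[ℂ] X lam where
  toFun y := ⟨fun k n => (y : ℕ → ℕ → ℂ) k (n + 1), fun k n => rel y k (n + 1)⟩
  map_add' _ _ := rfl
  map_smul' _ _ := rfl
  cont := by
    refine Continuous.subtype_mk ?_ _
    refine continuous_pi fun k => continuous_pi fun n => ?_
    exact (continuous_apply (n + 1)).comp ((continuous_apply k).comp continuous_subtype_val)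

lemma T_apply (y : X lam) (k n : ℕ) :
    (T lam y : ℕ → ℕ → ℂ) k n = (y : ℕ → ℕ → ℂ) k (n + 1) := rfl

lemma Tpow_apply (m : ℕ) (y : X lam) (k n : ℕ) :
    ((T lam ^ m) y : ℕ → ℕ → ℂ) k n = (y : ℕ → ℕ → ℂ) k (n + m) := by
  induction m generalizing n with
  | zero => simp
  | succ m ih =>
    rw [pow_succ', mul_apply_eq_comp, T_apply, ih]
    rw [show n + 1 + m = n + (m + 1) by ring]

/-- boxes form a base -/
lemma exists_box (U : Set (X lam)) (hU : IsOpen U) (x : X lam) (hx : x ∈ U) :
    ∃ L : ℕ, ∀ y : X lam, (∀ k < L, ∀ n < L, (y : ℕ → ℕ → ℂ) k n = (x : ℕ → ℕ → ℂ) k n) →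
      y ∈ U := by
  by_contra hcon
  push Not at hcon
  choose y hy hyU using hcon
  have htend : Tendsto y atTop (𝓝 x) := by
    rw [tendsto_subtype_rng]
    rw [tendsto_pi_nhds]
    intro k
    rw [tendsto_pi_nhds]
    intro n
    refine tendsto_const_nhds.congr' ?_
    filter_upwards [eventually_gt_atTop k, eventually_gt_atTop n] with L hk hn
    exact (hy L k hk n hn).symm
  obtain ⟨L, hL⟩ := (htend.eventually (hU.mem_nhds hx)).exists
  exact hyU L hL

/-- agreement on level `K` propagates to the lower levels -/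
lemma agree_down (y x : X lam) (K a m : ℕ)
    (h : ∀ i < m, (y : ℕ → ℕ → ℂ) K (i + a) = (x : ℕ → ℕ → ℂ) K i) :
    ∀ d k, k + d = K → ∀ i, i + d < m →
      (y : ℕ → ℕ → ℂ) k (i + a) = (x : ℕ → ℕ → ℂ) k i := by
  intro d
  induction d with
  | zero =>
    intro k hk i hi
    have : k = K := by omega
    subst this
    exact h i (by omega)
  | succ d ih =>
    intro k hk i hi
    rw [rel y, rel x]
    rw [show i + a + 1 = (i + 1) + a by ring, ih (k + 1) (by omega) (i + 1) (by omega),
      ih (k + 1) (by omega) i (by omega)]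

/-- extension of a sequence on level `K` to an element of `X` with prescribed properties -/
lemma exists_ext (Q : (ℕ → ℂ) → Prop)
    (hdown : ∀ k w, Q w → Q (fun n => w (n + 1) - lam k * w n))
    (hup : ∀ k w, Q w → ∃ z, Q z ∧ ∀ n, z (n + 1) = lam k * z n + w n) (K : ℕ) (w : ℕ → ℂ)
    (hw : Q w) :
    ∃ y : X lam, (y : ℕ → ℕ → ℂ) K = w ∧ ∀ k, Q ((y : ℕ → ℕ → ℂ) k) := by
  classical
  choose! up hup1 hup2 using hup
  -- the lower levels
  let D : ℕ → (ℕ → ℂ) := fun d => Nat.rec (motive := fun _ => ℕ → ℂ) w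
    (fun d v n => v (n + 1) - lam (K - d - 1) * v n) d
  have hD0 : D 0 = w := rfl
  have hD1 : ∀ d, D (d + 1) = fun n => D d (n + 1) - lam (K - d - 1) * D d n := fun _ => rfl
  have hDQ : ∀ d, Q (D d) := by
    intro d
    induction d with
    | zero => exact hw
    | succ d ih => rw [hD1]; exact hdown _ _ ih
  let W : ℕ → (ℕ → ℂ) := fun d => Nat.rec (motive := fun _ => ℕ → ℂ) w
    (fun d v => up (K + d) v) d
  have hW0 : W 0 = w := rfl
  have hW1 : ∀ d, W (d + 1) = up (K + d) (W d) := fun _ => rfl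
  have hWQ : ∀ d, Q (W d) := by
    intro d
    induction d with
    | zero => exact hw
    | succ d ih => rw [hW1]; exact hup1 _ _ ih
  let z : ℕ → ℕ → ℂ := fun k => if k ≤ K then D (K - k) else W (k - K)
  have hz : ∀ k n, z k n = z (k + 1) (n + 1) - lam k * z (k + 1) n := by
    intro k n
    rcases lt_trichotomy k K with hk | hk | hk
    · have h1 : z k = D (K - k) := if_pos hk.le
      have h2 : z (k + 1) = D (K - (k + 1)) := if_pos hk
      rw [h1, h2]
      have h3 : K - k = (K - (k + 1)) + 1 := by omega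
      rw [h3, hD1]
      have h4 : K - (K - (k + 1)) - 1 = k := by omega
      rw [h4]
    · subst hk
      have h1 : z k = w := by
        have : z k = D (k - k) := if_pos le_rfl
        rw [this, Nat.sub_self, hD0]
      have h2 : z (k + 1) = up k w := by
        have : z (k + 1) = W (k + 1 - k) := if_neg (by omega)
        rw [this, Nat.add_sub_cancel_left]
        rfl
      rw [h1, h2, hup2 k w hw n]
      ring
    · have h1 : z k = W (k - K) := if_neg (by omega)
      have h2 : z (k + 1) = W (k + 1 - K) := if_neg (by omega)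
      have h3 : k + 1 - K = (k - K) + 1 := by omega
      have h4 : K + (k - K) = k := by omega
      rw [h1, h2, h3, hW1, h4, hup2 k _ (hWQ _) n]
      ring
  refine ⟨⟨z, hz⟩, ?_, ?_⟩
  · change z K = w
    have : z K = D (K - K) := if_pos le_rfl
    rw [this, Nat.sub_self, hD0]
  · intro k
    change Q (z k)
    by_cases hk : k ≤ K
    · have h1 : z k = D (K - k) := if_pos hk
      rw [h1]; exact hDQ _
    · have h1 : z k = W (k - K) := if_neg hk
      rw [h1]; exact hWQ _

/-- the solution of `z (n+1) = l z n + w n` with `z 0 = c` -/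
def lift (l c : ℂ) (w : ℕ → ℂ) : ℕ → ℂ
  | 0 => c
  | n + 1 => l * lift l c w n + w n

lemma exists_level (K : ℕ) (w : ℕ → ℂ) : ∃ y : X lam, (y : ℕ → ℕ → ℂ) K = w := by
  obtain ⟨y, hy, -⟩ := exists_ext (lam := lam) (fun _ => True) (fun _ _ _ => trivial)
    (fun k w _ => ⟨lift (lam k) 0 w, trivial, fun n => rfl⟩) K w trivial
  exact ⟨y, hy⟩

/-- the operator is mixing -/
theorem mixing (U V : Set (X lam)) (hU : IsOpen U) (hV : IsOpen V) (hUne : U.Nonempty)
    (hVne : V.Nonempty) :
    ∃ N : ℕ, ∀ n : ℕ, N ≤ n → ((⇑(T lam ^ n)) ⁻¹' V ∩ U).Nonempty := by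
  obtain ⟨u, hu⟩ := hUne
  obtain ⟨v, hv⟩ := hVne
  obtain ⟨L₁, hL₁⟩ := exists_box U hU u hu
  obtain ⟨L₂, hL₂⟩ := exists_box V hV v hv
  set L := max L₁ L₂ with hL
  refine ⟨2 * L + 1, fun n hn => ?_⟩
  obtain ⟨y, hy⟩ := exists_level (lam := lam) L (fun i =>
    if i < 2 * L + 1 then (u : ℕ → ℕ → ℂ) L i else (v : ℕ → ℕ → ℂ) L (i - n))
  refine ⟨y, ?_, ?_⟩
  · apply hL₂
    intro k hk i hi
    rw [Tpow_apply]
    have hk' : k < L := lt_of_lt_of_le hk (le_max_right _ _)
    have hi' : i < L := lt_of_lt_of_le hi (le_max_right _ _)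
    apply agree_down y v L n (2 * L + 1) _ (L - k) k (by omega) i (by omega)
    intro j hj
    rw [hy]
    simp only
    rw [if_neg (by omega), Nat.add_sub_cancel]
  · apply hL₁
    intro k hk i hi
    have hk' : k < L := lt_of_lt_of_le hk (le_max_left _ _)
    have hi' : i < L := lt_of_lt_of_le hi (le_max_left _ _)
    have := agree_down y u L 0 (2 * L + 1) (by
      intro j hj
      rw [hy]
      simp only
      rw [add_zero, if_pos hj]) (L - k) k (by omega) i (by omega)
    simpa using this

lemma lift_periodic (l : ℂ) (w : ℕ → ℂ) (m : ℕ) (hw : ∀ n, w (n + m) = w n)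
    (hl : l ^ m ≠ 1) :
    ∀ n, lift l (lift l 0 w m / (1 - l ^ m)) w (n + m) =
      lift l (lift l 0 w m / (1 - l ^ m)) w n := by
  set c := lift l 0 w m / (1 - l ^ m) with hc
  have h1 : ∀ n, lift l c w n = l ^ n * c + lift l 0 w n := by
    intro n
    induction n with
    | zero => simp [lift]
    | succ n ih =>
      simp only [lift, ih]
      ring
  have hne : (1 : ℂ) - l ^ m ≠ 0 := sub_ne_zero.2 (Ne.symm hl)
  have h0 : lift l c w m = c := by
    rw [h1, hc]
    field_simp
    ring
  intro n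
  induction n with
  | zero => rw [zero_add, h0]; rfl
  | succ n ih =>
    rw [show n + 1 + m = (n + m) + 1 by ring]
    simp only [lift]
    rw [ih, hw]

/-- the periodic points are dense -/
theorem periodic_dense (hlam : ∀ k m, 0 < m → lam k ^ m ≠ 1) :
    Dense {x : X lam | ∃ n : ℕ, 0 < n ∧ (T lam ^ n) x = x} := by
  rw [dense_iff_inter_open]
  rintro U hU ⟨u, hu⟩
  obtain ⟨L, hL⟩ := exists_box U hU u hu
  set m := 2 * L + 1 with hm
  obtain ⟨y, hy, hQ⟩ := exists_ext (lam := lam) (fun w => ∀ n, w (n + m) = w n)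
    (by
      intro k w hw n
      simp only
      rw [show n + m + 1 = (n + 1) + m by ring, hw, hw])
    (by
      intro k w hw
      exact ⟨_, lift_periodic (lam k) w m hw (hlam k m (by omega)), fun n => rfl⟩)
    L (fun i => (u : ℕ → ℕ → ℂ) L (i % m)) (by intro n; simp)
  refine ⟨y, ?_, m, by omega, ?_⟩
  · apply hL
    intro k hk i hi
    have := agree_down y u L 0 m (by
      intro j hj
      rw [hy]
      simp only
      rw [add_zero, Nat.mod_eq_of_lt hj]) (L - k) k (by omega) i (by omega)
    simpa using this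
  · apply Subtype.ext
    funext k n
    rw [Tpow_apply]
    exact hQ k n

end Pool.Agent.H795R2.Fhc
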