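import Pool.Agent.H795R2.FhcA

/-!
# A frequently hypercyclic vector
-/

set_option autoImplicit false

open Filter Topology

namespace Pool.Agent.H795R2.Fhc

/-! ### The blocks -/

/-- the type of the block `j` -/
def ty (j : ℕ) : ℕ := padicValNat 2 (j + 1)

/-- the start of the block `j` -/
def bb (j : ℕ) : ℕ := 2 * padicValNat 2 (j.factorial) + j

lemma bb_zero : bb 0 = 0 := by simp [bb]

lemma bb_succ (j : ℕ) : bb (j + 1) = bb j + (2 * ty j + 1) := by
  have : Fact (Nat.Prime 2) := ⟨Nat.prime_two⟩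
  unfold bb ty
  rw [Nat.factorial_succ, padicValNat.mul (by omega) (Nat.factorial_ne_zero j)]
  ring

lemma bb_le (j : ℕ) : bb j ≤ 3 * j := by
  have : Fact (Nat.Prime 2) := ⟨Nat.prime_two⟩
  have h := sub_one_mul_padicValNat_factorial (p := 2) j
  unfold bb
  have h2 : padicValNat 2 j.factorial ≤ j := by
    have : (2 - 1) * padicValNat 2 j.factorial = padicValNat 2 j.factorial := by norm_num
    rw [this] at h
    omega
  omega

lemma bb_strictMono : StrictMono bb := strictMono_nat_of_lt_succ fun j => by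
  rw [bb_succ]; omega

/-- the index of the block which contains `n` -/
noncomputable def jj (n : ℕ) : ℕ := Nat.findGreatest (fun j => bb j ≤ n) n

lemma jj_eq {n j : ℕ} (h1 : bb j ≤ n) (h2 : n < bb (j + 1)) : jj n = j := by
  unfold jj
  have hj : j ≤ n := le_trans (bb_strictMono.id_le j) h1
  apply le_antisymm
  · by_contra hcon
    push Not at hcon
    have h3 : bb (Nat.findGreatest (fun j => bb j ≤ n) n) ≤ n :=
      Nat.findGreatest_spec (P := fun j => bb j ≤ n) hj h1
    have h4 : bb (j + 1) ≤ bb (Nat.findGreatest (fun j => bb j ≤ n) n) :=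
      bb_strictMono.monotone hcon
    omega
  · exact Nat.le_findGreatest hj h1

variable (lam : ℕ → ℂ)

/-- one step of the evolution of the states, with a given input on level zero -/
def step (c : ℂ) (s : ℕ → ℂ) : ℕ → ℂ
  | 0 => c
  | k + 1 => lam k * s (k + 1) + s k

/-- replace the input by zero -/
def clr (s : ℕ → ℂ) : ℕ → ℂ
  | 0 => 0
  | k + 1 => s (k + 1)

/-- the value on level `k` after `k` steps with zero input -/
def FF (k : ℕ) (s : ℕ → ℂ) : ℂ := ((step lam 0)^[k] (clr s)) k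

/-- the input at time `n`, given the state -/
noncomputable def inp (x : ℕ → X lam) (n : ℕ) (s : ℕ → ℂ) : ℂ :=
  if n < bb (jj n) + ty (jj n) then
    (x (ty (jj n)) : ℕ → ℕ → ℂ) (bb (jj n) + ty (jj n) - n) 0
      - FF lam (bb (jj n) + ty (jj n) - n) s
  else (x (ty (jj n)) : ℕ → ℕ → ℂ) 0 (n - (bb (jj n) + ty (jj n)))

/-- put the input into the state -/
noncomputable def put (x : ℕ → X lam) (n : ℕ) (s : ℕ → ℂ) : ℕ → ℂ
  | 0 => inp lam x n s
  | k + 1 => s (k + 1)

/-- the state at time `n` -/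
noncomputable def st (x : ℕ → X lam) : ℕ → (ℕ → ℂ)
  | 0 => put lam x 0 (fun _ => 0)
  | n + 1 => put lam x (n + 1) (step lam 0 (st x n))

variable {lam}

lemma st_succ (x : ℕ → X lam) (n k : ℕ) :
    st lam x (n + 1) (k + 1) = lam k * st lam x n (k + 1) + st lam x n k := by
  simp only [st, put, step]

lemma FF_congr (k : ℕ) (s s' : ℕ → ℂ) (h : ∀ i, s (i + 1) = s' (i + 1)) :
    FF lam k s = FF lam k s' := by
  unfold FF
  have : clr s = clr s' := by
    funext i
    cases i with
    | zero => rfl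
    | succ i => exact h i
  rw [this]

lemma st_zero_eq (x : ℕ → X lam) (n : ℕ) : st lam x n 0 = inp lam x n (st lam x n) := by
  have key : ∀ (m : ℕ) (s : ℕ → ℂ), put lam x m s 0 = inp lam x m (put lam x m s) := by
    intro m s
    change inp lam x m s = inp lam x m (put lam x m s)
    unfold inp
    rw [FF_congr (lam := lam) _ s (put lam x m s) (fun i => rfl)]
  cases n with
  | zero => exact key 0 _
  | succ n => exact key (n + 1) _

/-- the vector -/
noncomputable def yy (x : ℕ → X lam) : X lam :=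
  ⟨fun k n => st lam x n k, fun k n => by
    change st lam x n k = st lam x (n + 1) (k + 1) - lam k * st lam x n (k + 1)
    rw [st_succ]; ring⟩

/-- the effect of the input on the state -/
lemma evolve (x : ℕ → X lam) (n : ℕ) :
    ∀ i, (∀ m, i < m → st lam x (n + i) m = ((step lam 0)^[i] (clr (st lam x n))) m) ∧
      st lam x (n + i) i = ((step lam 0)^[i] (clr (st lam x n))) i + st lam x n 0 := by
  intro i
  induction i with
  | zero =>
    refine ⟨?_, ?_⟩
    · intro m hm
      obtain ⟨m', rfl⟩ : ∃ m', m = m' + 1 := ⟨m - 1, by omega⟩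
      rfl
    · simp [clr]
  | succ i ih =>
    obtain ⟨ih1, ih2⟩ := ih
    refine ⟨?_, ?_⟩
    · intro m hm
      obtain ⟨m', rfl⟩ : ∃ m', m = m' + 1 := ⟨m - 1, by omega⟩
      rw [Function.iterate_succ_apply', ← add_assoc, st_succ, ih1 _ (by omega), ih1 _ (by omega)]
      rfl
    · rw [Function.iterate_succ_apply', ← add_assoc, st_succ, ih1 _ (by omega), ih2]
      change _ = lam i * _ + _ + _
      ring

/-- steering: at the end of the first part of the block the state is as desired -/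
lemma steer (x : ℕ → X lam) (j k : ℕ) (hk : 1 ≤ k) (hk2 : k ≤ ty j) :
    st lam x (bb j + ty j) k = (x (ty j) : ℕ → ℕ → ℂ) k 0 := by
  set n := bb j + ty j - k with hn
  have hj : jj n = j := jj_eq (by omega) (by rw [bb_succ]; omega)
  have h1 := (evolve x n k).2
  have h2 : n + k = bb j + ty j := by omega
  rw [h2, st_zero_eq] at h1
  rw [h1]
  unfold inp
  rw [hj, if_pos (by omega)]
  have h3 : bb j + ty j - n = k := by omega
  rw [h3]
  unfold FF
  ring

lemma play (x : ℕ → X lam) (j i : ℕ) (hi : i ≤ ty j) :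
    st lam x (bb j + ty j + i) 0 = (x (ty j) : ℕ → ℕ → ℂ) 0 i := by
  have hj : jj (bb j + ty j + i) = j := jj_eq (by omega) (by rw [bb_succ]; omega)
  rw [st_zero_eq]
  unfold inp
  rw [hj, if_neg (by omega), Nat.add_sub_cancel_left]

lemma play_all (x : ℕ → X lam) (j : ℕ) : ∀ i ≤ ty j, ∀ k ≤ ty j,
    st lam x (bb j + ty j + i) k = (x (ty j) : ℕ → ℕ → ℂ) k i := by
  intro i
  induction i with
  | zero =>
    intro _ k hk
    rcases Nat.eq_zero_or_pos k with rfl | hk0
    · exact play x j 0 (by omega)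
    · exact steer x j k hk0 hk
  | succ i ih =>
    intro hi k hk
    rcases Nat.eq_zero_or_pos k with rfl | hk0
    · exact play x j (i + 1) hi
    · obtain ⟨k', rfl⟩ : ∃ k', k = k' + 1 := ⟨k - 1, by omega⟩
      rw [← add_assoc, st_succ, ih (by omega) _ hk, ih (by omega) _ (by omega),
        rel (x (ty j)) k' i]
      ring

/-- the operator is frequently hypercyclic -/
theorem fhc : ∃ y : X lam, ∀ U : Set (X lam), IsOpen U → U.Nonempty →
    ∃ δ : ℝ, 0 < δ ∧ ∃ N₀ : ℕ, ∀ N : ℕ, N₀ ≤ N →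
      δ * (N : ℝ) ≤ (Nat.card {n : ℕ // n < N ∧ (T lam ^ n) y ∈ U} : ℝ) := by
  have : Fact (Nat.Prime 2) := ⟨Nat.prime_two⟩
  have hne : Nonempty (X lam) := ⟨0⟩
  let x : ℕ → X lam := fun p => TopologicalSpace.denseSeq (X lam) (Nat.unpair p).1
  refine ⟨yy x, fun U hU hUne => ?_⟩
  obtain ⟨d, hd⟩ := (TopologicalSpace.denseRange_denseSeq (X lam)).exists_mem_open hU hUne
  obtain ⟨L, hL⟩ := exists_box U hU _ hd
  set p := Nat.pair d L with hp
  have hpL : L ≤ p := Nat.right_le_pair d L
  have hxp : x p = TopologicalSpace.denseSeq (X lam) d := by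
    simp [x, hp]
  -- the visits
  have hvisit : ∀ j, ty j = p → (T lam ^ (bb j + ty j)) (yy x) ∈ U := by
    intro j hj
    apply hL
    intro k hk i hi
    rw [Tpow_apply]
    change st lam x (i + (bb j + ty j)) k = _
    rw [add_comm i, play_all x j i (by omega) k (by omega), hj, hxp]
  have h2p : 0 < 2 ^ p := by positivity
  refine ⟨1 / (12 * 2 ^ p), by positivity, 12 * 2 ^ p, fun N hN => ?_⟩
  set M := N / (6 * 2 ^ p) with hM
  -- the injection
  have hty : ∀ m : ℕ, ty (2 ^ p * (2 * m + 1) - 1) = p := by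
    intro m
    unfold ty
    have h1 : 2 ^ p * (2 * m + 1) - 1 + 1 = 2 ^ p * (2 * m + 1) :=
      Nat.sub_add_cancel (by nlinarith)
    rw [h1, padicValNat.mul (by positivity) (by omega), padicValNat.prime_pow,
      padicValNat.eq_zero_of_not_dvd (by omega)]
    rfl
  have hcard : M ≤ Nat.card {n : ℕ // n < N ∧ (T lam ^ n) (yy x) ∈ U} := by
    have hfin : Finite {n : ℕ // n < N ∧ (T lam ^ n) (yy x) ∈ U} :=
      Set.Finite.to_subtype ((Set.finite_lt_nat N).subset fun n hn => hn.1)
    let g : Fin M → {n : ℕ // n < N ∧ (T lam ^ n) (yy x) ∈ U} := fun m =>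
      ⟨bb (2 ^ p * (2 * m + 1) - 1) + ty (2 ^ p * (2 * m + 1) - 1), by
        constructor
        · have h1 : bb (2 ^ p * (2 * m + 1) - 1) + ty (2 ^ p * (2 * m + 1) - 1) <
              bb (2 ^ p * (2 * m + 1) - 1 + 1) := by
            rw [bb_succ]; omega
          have h2 : 2 ^ p * (2 * (m : ℕ) + 1) - 1 + 1 = 2 ^ p * (2 * m + 1) :=
            Nat.sub_add_cancel (by nlinarith)
          rw [h2] at h1
          have h3 := bb_le (2 ^ p * (2 * (m : ℕ) + 1))
          have h4 : (m : ℕ) + 1 ≤ M := m.2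
          have h5 : 6 * 2 ^ p * M ≤ N := by
            rw [hM]
            exact Nat.mul_div_le N _
          have h6 : 6 * 2 ^ p * ((m : ℕ) + 1) ≤ 6 * 2 ^ p * M := Nat.mul_le_mul_left _ h4
          have h7 : 3 * (2 ^ p * (2 * (m : ℕ) + 1)) ≤ 6 * 2 ^ p * ((m : ℕ) + 1) := by nlinarith
          omega
        · exact hvisit _ (hty m)⟩
    have hg : Function.Injective g := by
      intro m m' hmm
      have h1 : bb (2 ^ p * (2 * (m : ℕ) + 1) - 1) + ty (2 ^ p * (2 * (m : ℕ) + 1) - 1) =
          bb (2 ^ p * (2 * (m' : ℕ) + 1) - 1) + ty (2 ^ p * (2 * (m' : ℕ) + 1) - 1) :=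
        congrArg Subtype.val hmm
      rw [hty, hty] at h1
      have h2 := bb_strictMono.injective (Nat.add_right_cancel h1)
      have h3 : 2 ^ p * (2 * (m : ℕ) + 1) = 2 ^ p * (2 * (m' : ℕ) + 1) := by
        have e1 : 2 ^ p * (2 * (m : ℕ) + 1) - 1 + 1 = 2 ^ p * (2 * m + 1) :=
          Nat.sub_add_cancel (by nlinarith)
        have e2 : 2 ^ p * (2 * (m' : ℕ) + 1) - 1 + 1 = 2 ^ p * (2 * m' + 1) :=
          Nat.sub_add_cancel (by nlinarith)
        rw [← e1, ← e2, h2]
      have h4 := Nat.eq_of_mul_eq_mul_left h2p h3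
      apply Fin.ext
      omega
    have := Nat.card_le_card_of_injective g hg
    simpa using this
  have hM2 : (N : ℝ) / (12 * 2 ^ p) ≤ M := by
    have h1 : N < 6 * 2 ^ p * (M + 1) := by
      rw [hM]
      exact Nat.lt_mul_div_succ N (by positivity)
    have h2 : (N : ℝ) < 6 * 2 ^ p * (M + 1) := by exact_mod_cast h1
    have h3 : (12 : ℝ) * 2 ^ p ≤ N := by exact_mod_cast hN
    have h4 : (0 : ℝ) < 2 ^ p := by positivity
    rw [div_le_iff₀ (by positivity)]
    nlinarith
  have hcard' : (M : ℝ) ≤ (Nat.card {n : ℕ // n < N ∧ (T lam ^ n) (yy x) ∈ U} : ℝ) := by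
    exact_mod_cast hcard
  calc 1 / (12 * 2 ^ p) * (N : ℝ) = (N : ℝ) / (12 * 2 ^ p) := by ring
    _ ≤ M := hM2
    _ ≤ _ := hcard'

end Pool.Agent.H795R2.Fhc
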