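import Pool.Agent.H795R2.FhcB

/-!
# The Frequent Hypercyclicity Criterion fails
-/

set_option autoImplicit false

open Filter Topology MeasureTheory

namespace Pool.Agent.H795R2.Fhc

local instance : Fact ((0 : ℝ) < 1) := ⟨zero_lt_one⟩

/-- uniqueness of the coefficients of an absolutely convergent Fourier series -/
lemma fourier_unique (c : ℤ → ℂ) (hc : Summable fun n => ‖c n‖)
    (h : ∀ x : AddCircle (1 : ℝ), ∑' n : ℤ, c n * fourier (-n) x = 0) (m : ℤ) : c m = 0 := by
  have h1 : HasSum (fun n : ℤ => ∫ x : AddCircle (1 : ℝ),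
      fourier m x * (c n * fourier (-n) x) ∂AddCircle.haarAddCircle)
      (∫ x : AddCircle (1 : ℝ), ∑' n : ℤ, fourier m x * (c n * fourier (-n) x)
        ∂AddCircle.haarAddCircle) := by
    apply hasSum_integral_of_summable_integral_norm
    · intro n
      apply Continuous.integrable_of_hasCompactSupport
      · fun_prop
      · exact HasCompactSupport.of_compactSpace _
    · refine hc.congr fun n => ?_
      have : ∀ x : AddCircle (1 : ℝ), ‖fourier m x * (c n * fourier (-n) x)‖ = ‖c n‖ := by
        intro x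
        rw [norm_mul, norm_mul]
        have e : ∀ k : ℤ, ‖(fourier k x : ℂ)‖ = 1 := fun k => by
          rw [fourier_apply, Circle.norm_coe]
        rw [e, e]; ring
      simp only [this]
      simp
  have h2 : (∫ x : AddCircle (1 : ℝ), ∑' n : ℤ, fourier m x * (c n * fourier (-n) x)
        ∂AddCircle.haarAddCircle) = 0 := by
    simp only [tsum_mul_left, h, mul_zero, integral_zero]
  have h3 : ∀ n : ℤ, (∫ x : AddCircle (1 : ℝ),
      fourier m x * (c n * fourier (-n) x) ∂AddCircle.haarAddCircle) = if n = m then c m else 0 := by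
    intro n
    have e1 := congrFun (fourierCoeff_fourier (T := (1 : ℝ)) (-n)) (-m)
    rw [fourierCoeff, neg_neg] at e1
    have e2 : ∀ x : AddCircle (1 : ℝ), fourier m x * (c n * fourier (-n) x) =
        c n * (fourier m x • fourier (-n) x) := by
      intro x
      rw [smul_eq_mul]; ring
    simp only [e2]
    rw [integral_const_mul, e1]
    by_cases hnm : n = m
    · subst hnm; simp
    · rw [if_neg hnm, Pi.single_eq_of_ne (by simpa using fun h => hnm h.symm), mul_zero]
  simp only [h3] at h1
  rw [h2] at h1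
  exact (hasSum_ite_eq m (c m)).unique h1 ▸ rfl

/-- evaluation of the coordinates is continuous -/
lemma summable_coord {lam : ℕ → ℂ} {f : ℕ → X lam} (hf : Summable f) (k n : ℕ) :
    Summable (fun i => ‖(f i : ℕ → ℕ → ℂ) k n‖) := by
  let E : X lam →L[ℂ] ℂ :=
    { toFun := fun y => (y : ℕ → ℕ → ℂ) k n
      map_add' := fun _ _ => rfl
      map_smul' := fun _ _ => rfl
      cont := (continuous_apply n).comp ((continuous_apply k).comp continuous_subtype_val) }
  have := E.summable hf
  exact this.norm

/-- the two-sided orbit of coordinates -/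
noncomputable def cc {lam : ℕ → ℂ} (S : X lam → X lam) (x : X lam) (k : ℕ) : ℤ → ℂ
  | Int.ofNat n => ((x : X lam) : ℕ → ℕ → ℂ) k n
  | Int.negSucc n => ((S^[n + 1] x : X lam) : ℕ → ℕ → ℂ) k 0

lemma cc_rel {lam : ℕ → ℂ} (S : X lam → X lam) (X₀ : Set (X lam)) (hS : ∀ x ∈ X₀, S x ∈ X₀)
    (hTS : ∀ x ∈ X₀, T lam (S x) = x) (x : X lam) (hx : x ∈ X₀) (k : ℕ) (n : ℤ) :
    cc S x k n = cc S x (k + 1) (n + 1) - lam k * cc S x (k + 1) n := by
  have hmem : ∀ m, S^[m] x ∈ X₀ := by
    intro m
    induction m with
    | zero => exact hx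
    | succ m ih => rw [Function.iterate_succ_apply']; exact hS _ ih
  have hT : ∀ m k i, (S^[m + 1] x : ℕ → ℕ → ℂ) k (i + 1) = (S^[m] x : ℕ → ℕ → ℂ) k i := by
    intro m k i
    rw [Function.iterate_succ_apply', ← T_apply, hTS _ (hmem m)]
  cases n with
  | ofNat n => exact rel x k n
  | negSucc n =>
    cases n with
    | zero =>
      have h1 : (Int.negSucc 0 : ℤ) + 1 = Int.ofNat 0 := rfl
      rw [h1]
      change (S^[0 + 1] x : ℕ → ℕ → ℂ) k 0 =
        (x : ℕ → ℕ → ℂ) (k + 1) 0 - lam k * (S^[0 + 1] x : ℕ → ℕ → ℂ) (k + 1) 0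
      rw [rel (S^[0 + 1] x) k 0, hT]
      rfl
    | succ n =>
      have h1 : (Int.negSucc (n + 1) : ℤ) + 1 = Int.negSucc n := rfl
      rw [h1]
      change (S^[n + 1 + 1] x : ℕ → ℕ → ℂ) k 0 =
        (S^[n + 1] x : ℕ → ℕ → ℂ) (k + 1) 0 - lam k * (S^[n + 1 + 1] x : ℕ → ℕ → ℂ) (k + 1) 0
      rw [rel (S^[n + 1 + 1] x) k 0, hT]

lemma cc_summable {lam : ℕ → ℂ} (S : X lam → X lam) (x : X lam)
    (h1 : Summable fun n : ℕ => (T lam ^ n) x) (h2 : Summable fun n : ℕ => S^[n] x) (k : ℕ) :
    Summable (fun n : ℤ => ‖cc S x k n‖) := by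
  apply Summable.of_nat_of_neg_add_one
  · have := summable_coord h1 k 0
    refine this.congr fun n => ?_
    rw [Tpow_apply, zero_add]
    rfl
  · have := (summable_nat_add_iff 1).2 (summable_coord h2 k 0)
    refine this.congr fun n => ?_
    have : -((n : ℤ) + 1) = Int.negSucc n := (Int.negSucc_eq n).symm
    rw [this]
    rfl

/-- The criterion fails as soon as the `λ_k` are dense in the circle, each value being attained
infinitely often. -/
theorem not_criterion (t : ℕ → ℝ) (ht : Dense (Set.range fun k => (t k : AddCircle (1 : ℝ))))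
    (hinf : ∀ k K, ∃ j, K ≤ j ∧ t j = t k) :
    ¬ ∃ X₀ : Set (X fun k => fourier 1 (t k : AddCircle (1 : ℝ))), Dense X₀ ∧
      ∃ S : (X fun k => fourier 1 (t k : AddCircle (1 : ℝ))) →
          (X fun k => fourier 1 (t k : AddCircle (1 : ℝ))), (∀ x ∈ X₀, S x ∈ X₀) ∧
        ∀ x ∈ X₀, Summable (fun n : ℕ => (T (fun k => fourier 1 (t k : AddCircle (1 : ℝ))) ^ n) x) ∧
          Summable (fun n : ℕ => S^[n] x) ∧
          T (fun k => fourier 1 (t k : AddCircle (1 : ℝ))) (S x) = x := by
  set lam : ℕ → ℂ := fun k => fourier 1 (t k : AddCircle (1 : ℝ)) with hlam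
  rintro ⟨X₀, hX₀, S, hS, hx⟩
  have hzero : ∀ x ∈ X₀, x = 0 := by
    intro x hxX
    have hsum := fun k => cc_summable S x (hx x hxX).1 (hx x hxX).2.1 k
    have hrel := cc_rel S X₀ hS (fun y hy => (hx y hy).2.2) x hxX
    -- the symbols
    let g : ℕ → AddCircle (1 : ℝ) → ℂ := fun k z => ∑' n : ℤ, cc S x k n * fourier (-n) z
    have hnorm1 : ∀ (k : ℤ) (z : AddCircle (1 : ℝ)), ‖(fourier k z : ℂ)‖ = 1 := fun k z => by
      rw [fourier_apply, Circle.norm_coe]
    have hsum2 : ∀ (k : ℕ) (z : AddCircle (1 : ℝ)), Summable (fun n : ℤ => cc S x k n * fourier (-n) z) := by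
      intro k z
      apply Summable.of_norm
      refine (hsum k).congr fun n => ?_
      rw [norm_mul, hnorm1, mul_one]
    have hg : ∀ k z, g k z = (fourier 1 z - lam k) * g (k + 1) z := by
      intro k z
      have e1 : g k z = ∑' n : ℤ, (cc S x (k + 1) (n + 1) * fourier (-n) z -
          lam k * (cc S x (k + 1) n * fourier (-n) z)) := by
        refine tsum_congr fun n => ?_
        rw [hrel k n]; ring
      have s1 : Summable (fun n : ℤ => cc S x (k + 1) (n + 1) * fourier (-n) z) := by
        have := (Equiv.addRight (1 : ℤ)).summable_iff.2 (hsum2 (k + 1) z)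
        have := this.mul_left (fourier 1 z : ℂ)
        refine this.congr fun n => ?_
        simp only [Function.comp, Equiv.coe_addRight]
        have : (fourier (-n) z : ℂ) = fourier 1 z * fourier (-(n + 1)) z := by
          rw [← fourier_add, show (1 : ℤ) + -(n + 1) = -n by ring]
        rw [this]; ring
      rw [e1, Summable.tsum_sub s1 ((hsum2 (k + 1) z).mul_left _), tsum_mul_left, sub_mul]
      congr 1
      have e2 : g (k + 1) z = ∑' n : ℤ, cc S x (k + 1) (n + 1) * fourier (-(n + 1)) z :=
        ((Equiv.addRight (1 : ℤ)).tsum_eq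
          (fun n : ℤ => cc S x (k + 1) n * fourier (-n) z)).symm
      rw [e2, ← tsum_mul_left]
      refine tsum_congr fun n => ?_
      have : (fourier (-n) z : ℂ) = fourier 1 z * fourier (-(n + 1)) z := by
        rw [← fourier_add, show (1 : ℤ) + -(n + 1) = -n by ring]
      rw [this]; ring
    -- vanishing at the points `t j`
    have hg0 : ∀ k j, k ≤ j → ∀ d k, k + d = j → g k (t j : AddCircle (1 : ℝ)) = 0 := by
      intro _ j _ d
      induction d with
      | zero =>
        intro k hk
        have : k = j := by omega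
        subst this
        rw [hg, hlam]
        simp
      | succ d ih =>
        intro k hk
        rw [hg, ih (k + 1) (by omega), mul_zero]
    have hcont : ∀ k, Continuous (g k) := by
      intro k
      refine continuous_tsum (u := fun n => ‖cc S x k n‖) ?_ (hsum k) ?_
      · intro n
        exact continuous_const.mul (map_continuous (fourier (-n)))
      · intro n z
        rw [norm_mul, hnorm1, mul_one]
    have hg1 : ∀ k z, g k z = 0 := by
      intro k z
      have hclosed : IsClosed {z | g k z = 0} := isClosed_eq (hcont k) continuous_const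
      have hsub : (Set.range fun k => (t k : AddCircle (1 : ℝ))) ⊆ {z | g k z = 0} := by
        rintro _ ⟨i, rfl⟩
        obtain ⟨j, hj, hji⟩ := hinf i k
        change g k (t i : AddCircle (1 : ℝ)) = 0
        rw [← hji]
        exact hg0 k j hj (j - k) k (by omega)
      have := (ht.mono hsub).closure_eq
      rw [hclosed.closure_eq] at this
      have h2 : z ∈ (Set.univ : Set (AddCircle (1 : ℝ))) := trivial
      rw [← this] at h2
      exact h2
    have hc : ∀ k n, cc S x k n = 0 := fun k n => fourier_unique _ (hsum k) (hg1 k) n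
    apply Subtype.ext
    funext k n
    exact hc k (n : ℤ)
  have hall : ∀ x : X lam, x = 0 := by
    intro x
    have h1 : (Set.univ : Set (X lam)) ⊆ {0} := by
      rw [← hX₀.closure_eq]
      refine closure_minimal (fun y hy => hzero y hy) isClosed_singleton
    exact h1 trivial
  obtain ⟨y, hy⟩ := exists_level (lam := lam) 0 (fun _ => 1)
  have h1 := hall y
  have h2 : (y : ℕ → ℕ → ℂ) 0 0 = 1 := by rw [hy]
  rw [h1] at h2
  exact zero_ne_one h2

end Pool.Agent.H795R2.Fhc
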